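import Mathlib

set_option autoImplicit false

/-!
# Existential formulas over algebraically closed fields: definable sets in one variable
-/

namespace Pool.Agent.Run7.h91.NU

open MvPolynomial PrimeSpectrum Topology

/-- `K ⊨ ∃ z, ψ (f_i (a, b, z) = 0 : i)`; `ψ` is a Boolean combination (or any condition on the set of
the indices `i` for which the equation holds). -/
def Ex {k : Type} [Field k] {m n : ℕ} (f : Fin m → MvPolynomial (Fin 2 ⊕ Fin n) k)
    (ψ : (Fin m → Prop) → Prop) (K : Type) [Field K] [Algebra k K] (a b : K) : Prop :=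
  ∃ z : Fin n → K, ψ fun i => aeval (Sum.elim ![a, b] z) (f i) = 0

section
variable {k : Type} [Field k] {m n : ℕ} (f : Fin m → MvPolynomial (Fin 2 ⊕ Fin n) k)
    (ψ : (Fin m → Prop) → Prop)

theorem pattern {K L : Type} [Field K] [Field L] [Algebra k K] [Algebra k L] (φ : K →ₐ[k] L)
    (a b : K) (z : Fin n → K) :
    (fun i => aeval (Sum.elim ![φ a, φ b] (fun j => φ (z j))) (f i) = 0) =
      fun i => aeval (Sum.elim ![a, b] z) (f i) = 0 := by
  funext i
  have e : (Sum.elim ![φ a, φ b] (fun j => φ (z j)) : Fin 2 ⊕ Fin n → L) =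
      fun j => φ (Sum.elim ![a, b] z j) := by
    funext x
    rcases x with j | j
    · fin_cases j <;> rfl
    · rfl
  rw [e, ← comp_aeval_apply]
  simp

theorem Ex.map {K L : Type} [Field K] [Field L] [Algebra k K] [Algebra k L] (φ : K →ₐ[k] L)
    {a b : K} (h : Ex f ψ K a b) : Ex f ψ L (φ a) (φ b) := by
  obtain ⟨z, hz⟩ := h
  exact ⟨fun j => φ (z j), by rw [pattern f φ]; exact hz⟩

end

section
variable {Ω : Type} [Field Ω]

/-- the point `a` of the affine line -/
noncomputable def pt (a : Ω) : PrimeSpectrum (Polynomial Ω) :=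
  PrimeSpectrum.comap (Polynomial.evalRingHom a) ⊥

theorem mem_pt (a : Ω) (P : Polynomial Ω) : P ∈ (pt a).asIdeal ↔ P.eval a = 0 := by
  unfold pt
  rw [PrimeSpectrum.comap_asIdeal, Ideal.mem_comap]
  simp

/-- the point `x` of affine space -/
noncomputable def ptM {σ : Type} (x : σ → Ω) : PrimeSpectrum (MvPolynomial σ Ω) :=
  PrimeSpectrum.comap (MvPolynomial.eval x) ⊥

theorem mem_ptM {σ : Type} (x : σ → Ω) (P : MvPolynomial σ Ω) :
    P ∈ (ptM x).asIdeal ↔ eval x P = 0 := by
  unfold ptM
  rw [PrimeSpectrum.comap_asIdeal, Ideal.mem_comap]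
  simp

theorem fin_cofin_of_constructible (T : Set (PrimeSpectrum (Polynomial Ω)))
    (hT : IsConstructible T) :
    {a : Ω | pt a ∈ T}.Finite ∨ {a : Ω | pt a ∉ T}.Finite := by
  classical
  induction hT using IsConstructible.empty_union_induction with
  | open_retrocompact U hU _ =>
    obtain ⟨s, hs⟩ := (PrimeSpectrum.isOpen_iff U).1 hU
    by_cases h : ∃ P ∈ s, P ≠ 0
    · right
      obtain ⟨P, hP, hP0⟩ := h
      refine (P.roots.toFinset.finite_toSet).subset fun a ha => ?_
      have h1 : pt a ∈ Uᶜ := ha
      rw [hs, PrimeSpectrum.mem_zeroLocus] at h1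
      have h2 := (mem_pt a P).1 (h1 hP)
      simp only [Finset.mem_coe, Multiset.mem_toFinset]
      exact (Polynomial.mem_roots hP0).2 h2
    · left
      push Not at h
      have h1 : Uᶜ = Set.univ := by
        rw [hs, Set.eq_univ_iff_forall]
        intro x
        rw [PrimeSpectrum.mem_zeroLocus]
        intro P hP
        rw [h P hP]
        exact x.asIdeal.zero_mem
      have h2 : U = ∅ := Set.compl_univ_iff.1 h1
      rw [h2]
      simp
  | union S _ T _ h1 h2 =>
    rcases h1 with h1 | h1
    · rcases h2 with h2 | h2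
      · left
        exact (h1.union h2).subset fun a ha => ha
      · right
        exact h2.subset fun a ha h => ha (Or.inr h)
    · right
      exact h1.subset fun a ha h => ha (Or.inl h)
  | compl S _ h =>
    rcases h with h | h
    · right
      refine h.subset fun a ha => ?_
      simpa using ha
    · left
      exact h

end

theorem constr_mem {R : Type} [CommRing R] [IsNoetherianRing R] (F : R) :
    IsConstructible {q : PrimeSpectrum R | F ∈ q.asIdeal} := by
  have h : {q : PrimeSpectrum R | F ∈ q.asIdeal} = (PrimeSpectrum.basicOpen F : Set _)ᶜ := by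
    ext q
    simp
  rw [h, isConstructible_compl]
  exact PrimeSpectrum.isConstructible_basicOpen

theorem constr_iff {X : Type} [TopologicalSpace X] {S : Set X} (hS : IsConstructible S) (p : Prop) :
    IsConstructible {q : X | q ∈ S ↔ p} := by
  by_cases hp : p
  · have : {q : X | q ∈ S ↔ p} = S := by ext q; simp [hp]
    rw [this]; exact hS
  · have : {q : X | q ∈ S ↔ p} = Sᶜ := by ext q; simp [hp]
    rw [this]; exact isConstructible_compl.2 hS

theorem constr_pattern {X : Type} [TopologicalSpace X] {m : ℕ} {S : Fin m → Set X}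
    (hS : ∀ i, IsConstructible (S i)) (ψ : (Fin m → Prop) → Prop) :
    IsConstructible {q : X | ψ fun i => q ∈ S i} := by
  have h : {q : X | ψ fun i => q ∈ S i} =
      ⋃ p : {p : Fin m → Prop // ψ p}, ⋂ i, {q : X | q ∈ S i ↔ p.1 i} := by
    ext q
    simp only [Set.mem_ofPred_eq, Set.mem_iUnion, Set.mem_iInter]
    constructor
    · intro hq
      exact ⟨⟨_, hq⟩, fun i => Iff.rfl⟩
    · rintro ⟨⟨p, hp⟩, h⟩
      have : (fun i => q ∈ S i) = p := funext fun i => propext (h i)
      rw [this]
      exact hp
  rw [h]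
  exact IsConstructible.iUnion fun p => IsConstructible.iInter fun i => constr_iff (hS i) _

/-- sets definable by an existential formula are finite or cofinite -/
theorem minimal {k Ω : Type} [Field k] [Field Ω] [IsAlgClosed Ω] [Algebra k Ω] {m n : ℕ}
    (f : Fin m → MvPolynomial (Fin 2 ⊕ Fin n) k) (ψ : (Fin m → Prop) → Prop) (b : Ω) :
    {a : Ω | Ex f ψ Ω a b}.Finite ∨ {a : Ω | ¬ Ex f ψ Ω a b}.Finite := by
  classical
  let F : Fin m → MvPolynomial (Fin 2 ⊕ Fin n) Ω := fun i => MvPolynomial.map (algebraMap k Ω) (f i)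
  have hF : ∀ (i : Fin m) (x : Fin 2 ⊕ Fin n → Ω), eval x (F i) = aeval x (f i) := fun i x => by
    simp only [F]
    rw [eval_map, aeval_def]
  let φ : Polynomial Ω →ₐ[Ω] MvPolynomial (Fin 2 ⊕ Fin n) Ω := Polynomial.aeval (X (Sum.inl 0))
  let s : Set (PrimeSpectrum (MvPolynomial (Fin 2 ⊕ Fin n) Ω)) :=
    {q | (X (Sum.inl 1) - C b) ∈ q.asIdeal} ∩ {q | ψ fun i => F i ∈ q.asIdeal}
  have hs : IsConstructible s := (constr_mem _).inter
    (constr_pattern (S := fun i => {q : PrimeSpectrum (MvPolynomial (Fin 2 ⊕ Fin n) Ω) |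
      F i ∈ q.asIdeal}) (fun i => constr_mem _) ψ)
  have hφ : φ.toRingHom.FinitePresentation := by
    refine RingHom.FinitePresentation.of_finiteType.1 ?_
    refine RingHom.FiniteType.of_comp_finiteType (f := (Polynomial.C : Ω →+* Polynomial Ω)) ?_
    have e : φ.toRingHom.comp (Polynomial.C : Ω →+* Polynomial Ω) =
        algebraMap Ω (MvPolynomial (Fin 2 ⊕ Fin n) Ω) := by
      ext r
      simp [φ]
    rw [e, RingHom.finiteType_algebraMap]
    infer_instance
  have hT := isConstructible_comap_image hφ hs
  have key : ∀ a : Ω, pt a ∈ (PrimeSpectrum.comap φ.toRingHom) '' s ↔ Ex f ψ Ω a b := by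
    intro a
    constructor
    · rintro ⟨q, ⟨hq1, hq2⟩, hq3⟩
      -- a closed point
      let G : MvPolynomial (Fin 2 ⊕ Fin n) Ω :=
        ∏ i ∈ Finset.univ.filter (fun i => F i ∉ q.asIdeal), F i
      have hG : G ∉ q.asIdeal := by
        intro h
        obtain ⟨i, hi, hi2⟩ := (Ideal.IsPrime.prod_mem_iff (hp := q.2)).1 h
        exact (Finset.mem_filter.1 hi).2 hi2
      have hJR : IsJacobsonRing (MvPolynomial (Fin 2 ⊕ Fin n) Ω) := inferInstance
      have hjac : q.asIdeal.jacobson = q.asIdeal := hJR.out q.2.isRadical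
      rw [← hjac, Ideal.jacobson, Ideal.mem_sInf] at hG
      push Not at hG
      obtain ⟨J, ⟨hJ1, hJ2⟩, hJ3⟩ := hG
      obtain ⟨x, hx⟩ := isMaximal_iff_eq_vanishingIdeal_singleton.1 hJ2
      have hmem : ∀ P, P ∈ J ↔ eval x P = 0 := fun P => by
        rw [hx, mem_vanishingIdeal_singleton_iff]
        rfl
      have hpat : (fun i => F i ∈ q.asIdeal) = fun i => eval x (F i) = 0 := by
        funext i
        apply propext
        rw [← hmem]
        refine ⟨fun h => hJ1 h, fun h => ?_⟩
        by_contra hc
        obtain ⟨c, hc2⟩ := Finset.dvd_prod_of_mem F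
          (Finset.mem_filter.2 ⟨Finset.mem_univ i, hc⟩ :
            i ∈ Finset.univ.filter (fun i => F i ∉ q.asIdeal))
        refine hJ3 ?_
        show (∏ i ∈ Finset.univ.filter (fun i => F i ∉ q.asIdeal), F i) ∈ J
        rw [hc2]
        exact J.mul_mem_right c h
      have hb : x (Sum.inl 1) = b := by
        have := (hmem _).1 (hJ1 hq1)
        simpa [sub_eq_zero] using this
      have ha : x (Sum.inl 0) = a := by
        have h1 : (Polynomial.X - Polynomial.C a) ∈ (pt a).asIdeal := by
          rw [mem_pt]; simp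
        rw [← hq3, PrimeSpectrum.comap_asIdeal, Ideal.mem_comap] at h1
        have := (hmem _).1 (hJ1 h1)
        simpa [φ, sub_eq_zero] using this
      refine ⟨fun j => x (Sum.inr j), ?_⟩
      have hx2 : (Sum.elim ![a, b] fun j => x (Sum.inr j)) = x := by
        funext y
        rcases y with j | j
        · fin_cases j
          · exact ha.symm
          · exact hb.symm
        · rfl
      rw [hx2]
      have : (fun i => aeval x (f i) = 0) = fun i => F i ∈ q.asIdeal := by
        rw [hpat]
        funext i
        rw [hF]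
      rw [this]
      exact hq2
    · rintro ⟨z, hz⟩
      refine ⟨ptM (Sum.elim ![a, b] z), ⟨?_, ?_⟩, ?_⟩
      · show _ ∈ (ptM _).asIdeal
        rw [mem_ptM]
        simp
      · show ψ fun i => F i ∈ (ptM _).asIdeal
        have : (fun i => F i ∈ (ptM (Sum.elim ![a, b] z)).asIdeal) =
            fun i => aeval (Sum.elim ![a, b] z) (f i) = 0 := by
          funext i
          rw [mem_ptM, hF]
        rw [this]
        exact hz
      · ext P
        rw [mem_pt, PrimeSpectrum.comap_asIdeal, Ideal.mem_comap, mem_ptM]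
        have : eval (Sum.elim ![a, b] z) (φ.toRingHom P) = P.eval a := by
          show eval (Sum.elim ![a, b] z) (Polynomial.aeval (X (Sum.inl 0)) P) = P.eval a
          induction P using Polynomial.induction_on' with
          | add p q hp hq => rw [map_add, map_add, hp, hq, Polynomial.eval_add]
          | monomial j c => simp
        rw [this]
  have := fin_cofin_of_constructible _ hT
  simp only [key] at this
  exact this

end Pool.Agent.Run7.h91.NU
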