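import Mathlib

set_option autoImplicit false

/-!
# Zeros of a polynomial in extensions of bounded degree
-/

namespace Pool.Agent.Run7.h91.NU

open MvPolynomial

theorem coeff_line {k : Type} [Field k] {n : ℕ} (w : Fin n → k) (j : ℕ)
    (P : MvPolynomial (Fin n) k) :
    (aeval (fun i => Polynomial.C (w i) * Polynomial.X) P : Polynomial k).coeff j =
      eval w (homogeneousComponent j P) := by
  induction P using MvPolynomial.induction_on' with
  | monomial s c =>
    have h1 : (aeval (fun i => Polynomial.C (w i) * Polynomial.X) (monomial s c) : Polynomial k) =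
        Polynomial.C (c * s.prod fun i e => w i ^ e) * Polynomial.X ^ (s.degree) := by
      rw [aeval_monomial, Finsupp.degree_apply, Finsupp.prod, Finsupp.prod,
        ← Finset.prod_pow_eq_pow_sum, map_mul, map_prod, mul_assoc, ← Finset.prod_mul_distrib]
      congr 1
      refine Finset.prod_congr rfl fun i _ => ?_
      rw [mul_pow, map_pow]
    have h2 : homogeneousComponent j (monomial s c) =
        if j = s.degree then (monomial s c : MvPolynomial (Fin n) k) else 0 :=
      homogeneousComponent_of_mem (by
        rw [mem_homogeneousSubmodule]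
        exact isHomogeneous_monomial c rfl)
    rw [h1, h2, Polynomial.coeff_C_mul, Polynomial.coeff_X_pow]
    split_ifs with h
    · rw [eval_monomial, mul_one]
    · rw [map_zero, mul_zero]
  | add p q hp hq => rw [map_add, map_add, map_add, Polynomial.coeff_add, hp, hq]

/-- a nonconstant polynomial of total degree at most `d` over an infinite field has a zero in an
extension of degree at most `d` -/
theorem zero_of_degree {k : Type} [Field k] [Infinite k] {n : ℕ} (P : MvPolynomial (Fin n) k)
    (d : ℕ) (hd : P.totalDegree ≤ d) (hP : 0 < P.totalDegree) :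
    ∃ (L : Type) (_ : Field L) (_ : Algebra k L) (_ : FiniteDimensional k L),
      Module.finrank k L ≤ d ∧ ∃ z : Fin n → L, aeval z P = 0 := by
  -- a direction in which the leading form does not vanish
  set e := P.totalDegree with he
  have hne : homogeneousComponent e P ≠ 0 := by
    intro h
    have hP0 : P ≠ 0 := by
      rintro rfl
      simp [he] at hP
    obtain ⟨b, hb, hb2⟩ := Finset.exists_mem_eq_sup P.support (by
      rw [Finset.nonempty_iff_ne_empty, Ne, support_eq_empty]; exact hP0)
      (fun s => s.sum fun _ e => e)
    have h1 : coeff b (homogeneousComponent e P) = coeff b P := by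
      rw [coeff_homogeneousComponent, if_pos]
      rw [he, totalDegree, hb2]
      rfl
    rw [h, coeff_zero] at h1
    exact (mem_support_iff.1 hb) h1.symm
  obtain ⟨w, hw⟩ : ∃ w : Fin n → k, eval w (homogeneousComponent e P) ≠ 0 := by
    by_contra hc
    push Not at hc
    exact hne (MvPolynomial.funext fun x => by rw [hc x, map_zero])
  -- the restriction to the line
  let g : Polynomial k := aeval (fun i => Polynomial.C (w i) * Polynomial.X) P
  have hg : ∀ j, g.coeff j = eval w (homogeneousComponent j P) := fun j => coeff_line w j P
  have hgdeg : g.natDegree = e := by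
    refine le_antisymm ?_ ?_
    · rw [Polynomial.natDegree_le_iff_coeff_eq_zero]
      intro j hj
      rw [hg, homogeneousComponent_eq_zero _ _ hj, map_zero]
    · refine Polynomial.le_natDegree_of_ne_zero ?_
      rw [hg]
      exact hw
  have hgunit : ¬ IsUnit g := by
    intro h
    have := Polynomial.natDegree_eq_zero_of_isUnit h
    omega
  have hg0 : g ≠ 0 := by
    intro h
    rw [h] at hgdeg
    simp at hgdeg
    omega
  obtain ⟨q, hq, hqg⟩ := WfDvdMonoid.exists_irreducible_factor hgunit hg0
  have : Fact (Irreducible q) := ⟨hq⟩
  have hq0 : q ≠ 0 := hq.ne_zero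
  refine ⟨AdjoinRoot q, inferInstance, inferInstance, ?_, ?_, fun i =>
    algebraMap k _ (w i) * AdjoinRoot.root q, ?_⟩
  · exact (AdjoinRoot.powerBasis hq0).finite
  · rw [(AdjoinRoot.powerBasis hq0).finrank, AdjoinRoot.powerBasis_dim]
    exact (Polynomial.natDegree_le_of_dvd hqg hg0).trans (hgdeg.le.trans hd)
  · have h1 : aeval (fun i => algebraMap k (AdjoinRoot q) (w i) * AdjoinRoot.root q) P =
        Polynomial.aeval (AdjoinRoot.root q) g := by
      simp only [g]
      rw [comp_aeval_apply]
      congr 1
      simp
    rw [h1]
    obtain ⟨c, hc⟩ := hqg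
    rw [hc, map_mul, AdjoinRoot.aeval_eq]
    simp
end Pool.Agent.Run7.h91.NU
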