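import Mathlib

set_option autoImplicit false

/-!
# The pole relation for some rational numbers
-/

namespace Pool.Agent.Run7.h91.NU

open IsDedekindDomain NumberField

/-- the relation `R_K` -/
def Pole (K : Type) [Field K] [NumberField K] (a b : K) : Prop :=
  ∀ v : HeightOneSpectrum (𝓞 K), (∃ p : ℕ, p.Prime ∧ p % 4 = 1 ∧ ((p : 𝓞 K) ∈ v.asIdeal)) →
    1 < v.valuation K a → 1 < v.valuation K b

theorem pole_nat (K : Type) [Field K] [NumberField K] (n : ℕ) (b : K) : Pole K (n : K) b := by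
  intro v _ h
  exfalso
  have h1 : v.valuation K (algebraMap (𝓞 K) K (n : 𝓞 K)) ≤ 1 := v.valuation_le_one (n : 𝓞 K)
  rw [map_natCast] at h1
  exact absurd h (not_lt.2 h1)

theorem exists_above_five (K : Type) [Field K] [NumberField K] :
    ∃ v : HeightOneSpectrum (𝓞 K), ((5 : ℕ) : 𝓞 K) ∈ v.asIdeal := by
  have hm : (Ideal.span {(5 : ℤ)}).IsMaximal := by
    refine PrincipalIdealRing.isMaximal_of_irreducible ?_
    exact (Int.prime_iff_natAbs_prime.2 (by norm_num)).irreducible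
  obtain ⟨Q, hQ, hQ2⟩ := Ideal.exists_ideal_over_maximal_of_isIntegral (S := 𝓞 K)
    (Ideal.span {(5 : ℤ)}) (by
      rw [(RingHom.injective_iff_ker_eq_bot _).1 (algebraMap ℤ (𝓞 K)).injective_int]
      exact bot_le)
  have h5 : ((5 : ℕ) : 𝓞 K) ∈ Q := by
    have : (5 : ℤ) ∈ Q.comap (algebraMap ℤ (𝓞 K)) := by
      rw [hQ2]
      exact Ideal.mem_span_singleton_self _
    rw [Ideal.mem_comap] at this
    simpa using this
  refine ⟨⟨Q, hQ.isPrime, ?_⟩, h5⟩
  rintro rfl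
  rw [Ideal.mem_bot] at h5
  norm_num at h5

theorem not_pole_fifth (K : Type) [Field K] [NumberField K] (n : ℕ) :
    ¬ Pole K (((5 * n + 1 : ℕ) : K) / ((5 : ℕ) : K)) 1 := by
  intro h
  obtain ⟨v, hv⟩ := exists_above_five K
  have h1 := h v ⟨5, by norm_num, by norm_num, hv⟩
  rw [map_one] at h1
  refine absurd (h1 ?_) (lt_irrefl _)
  have h5 : v.valuation K ((5 : ℕ) : K) < 1 := by
    have : v.valuation K (algebraMap (𝓞 K) K ((5 : ℕ) : 𝓞 K)) < 1 :=
      (v.valuation_lt_one_iff_mem ((5 : ℕ) : 𝓞 K)).2 hv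
    rwa [map_natCast] at this
  have h6 : v.valuation K ((5 * n + 1 : ℕ) : K) = 1 := by
    have h7 : ((5 * n + 1 : ℕ) : 𝓞 K) ∉ v.asIdeal := by
      intro hc
      push_cast at hc
      have h8 : (5 * (n : 𝓞 K) : 𝓞 K) ∈ v.asIdeal := by
        have := v.asIdeal.mul_mem_right (n : 𝓞 K) hv
        push_cast at this
        exact this
      exact v.isPrime.ne_top ((Ideal.eq_top_iff_one _).2 ((Ideal.add_mem_iff_right _ h8).1 hc))
    have : v.valuation K (algebraMap (𝓞 K) K ((5 * n + 1 : ℕ) : 𝓞 K)) = 1 :=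
      (v.valuation_eq_one_iff_notMem (r := ((5 * n + 1 : ℕ) : 𝓞 K))).2 h7
    rwa [map_natCast] at this
  rw [map_div₀, h6, one_div]
  have h50 : v.valuation K ((5 : ℕ) : K) ≠ 0 := by
    rw [(v.valuation K).ne_zero_iff]
    norm_num
  exact (one_lt_inv₀ (zero_lt_iff.2 h50)).2 h5

end Pool.Agent.Run7.h91.NU
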