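import Pool.Agent.Run7.h91.NU.Rl
import Pool.Agent.Run7.h91.NU.Deg
import Pool.Agent.Run7.h91.NU.Pole

set_option autoImplicit false

/-!
# No uniform existential or universal definition of the pole relation
-/

namespace Pool.Agent.Run7.h91.NU

open MvPolynomial

/-- rational numbers without pole above the primes `1` modulo `4` -/
def uu (i : ℕ) : ℚ := i

/-- rational numbers with a pole at `5` -/
def ww (i : ℕ) : ℚ := ((5 * i + 1 : ℕ) : ℚ) / ((5 : ℕ) : ℚ)

theorem uu_inj : Function.Injective uu := fun i j h => by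
  unfold uu at h
  exact_mod_cast h

theorem ww_inj : Function.Injective ww := fun i j h => by
  unfold ww at h
  have h5 : ((5 : ℕ) : ℚ) ≠ 0 := by norm_num
  rw [div_left_inj' h5] at h
  have : 5 * i + 1 = 5 * j + 1 := by exact_mod_cast h
  omega

theorem uu_large (B : ℝ) : ∃ i, B < ((uu i : ℚ) : ℝ) := by
  obtain ⟨i, hi⟩ := exists_nat_gt B
  refine ⟨i, ?_⟩
  unfold uu
  push_cast
  exact hi

theorem ww_large (B : ℝ) : ∃ i, B < ((ww i : ℚ) : ℝ) := by
  obtain ⟨i, hi⟩ := exists_nat_gt B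
  refine ⟨i, ?_⟩
  unfold ww
  push_cast
  rw [lt_div_iff₀ (by norm_num)]
  linarith

theorem pole_uu (K : Type) [Field K] [NumberField K] (i : ℕ) : Pole K ((uu i : ℚ) : K) 1 := by
  unfold uu
  have : (((i : ℕ) : ℚ) : K) = (i : K) := by push_cast; rfl
  rw [this]
  exact pole_nat K i 1

theorem not_pole_ww (K : Type) [Field K] [NumberField K] (i : ℕ) :
    ¬ Pole K ((ww i : ℚ) : K) 1 := by
  have : ((ww i : ℚ) : K) = ((5 * i + 1 : ℕ) : K) / ((5 : ℕ) : K) := by
    unfold ww
    rw [Rat.cast_div, Rat.cast_natCast, Rat.cast_natCast]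
  rw [this]
  exact not_pole_fifth K i

/-- each sequence `x` and `y` of large rational numbers: a solution for some `x i` in a finite extension,
or no solution for some `y i` -/
def Dich (k Ω : Type) [Field k] [Field Ω] [Algebra k Ω] : Prop :=
  ∀ (m n : ℕ) (f : Fin m → MvPolynomial (Fin 2 ⊕ Fin n) k) (ψ : (Fin m → Prop) → Prop)
    (x y : ℕ → ℚ), Function.Injective x → Function.Injective y →
    (∀ B : ℝ, ∃ i, B < ((x i : ℚ) : ℝ)) → (∀ B : ℝ, ∃ i, B < ((y i : ℚ) : ℝ)) →
    ∃ L : IntermediateField k Ω, FiniteDimensional k L ∧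
      ((∃ i, Ex f ψ L ((x i : ℚ) : L) 1) ∨ ∃ i, ¬ Ex f ψ Ω ((y i : ℚ) : Ω) 1)

theorem finite_witness {k E : Type} [Field k] [Field E] [Algebra k E]
    {m n : ℕ} (f : Fin m → MvPolynomial (Fin 2 ⊕ Fin n) k) (ψ : (Fin m → Prop) → Prop) (x : ℚ)
    (z : Fin n → E) (hz : ∀ j, IsAlgebraic k (z j))
    (h : ψ fun i => aeval (Sum.elim ![(x : E), 1] z) (f i) = 0) :
    ∃ L : IntermediateField k E, FiniteDimensional k L ∧ Ex f ψ L (x : L) 1 := by
  refine ⟨IntermediateField.adjoin k (Set.range z), ?_, ?_⟩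
  · apply IntermediateField.finiteDimensional_adjoin
    rintro _ ⟨j, rfl⟩
    exact (hz j).isIntegral
  · let z' : Fin n → IntermediateField.adjoin k (Set.range z) := fun j =>
      ⟨z j, IntermediateField.subset_adjoin k _ ⟨j, rfl⟩⟩
    refine ⟨z', ?_⟩
    rw [← pattern f (IntermediateField.adjoin k (Set.range z)).val]
    have h1 : (IntermediateField.adjoin k (Set.range z)).val
        (x : IntermediateField.adjoin k (Set.range z)) = (x : E) := map_ratCast _ x
    rw [h1, map_one]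
    exact h

theorem dich_alg (k : Type) [Field k] [CharZero k] : Dich k (AlgebraicClosure k) := by
  intro m n f ψ x y hx hy _ _
  have : CharZero (AlgebraicClosure k) := charZero_of_injective_algebraMap
    (algebraMap k (AlgebraicClosure k)).injective
  have hinf : ∀ (S : Set (AlgebraicClosure k)), S.Finite → ∀ x : ℕ → ℚ, Function.Injective x →
      ∃ i, ((x i : ℚ) : AlgebraicClosure k) ∉ S := by
    intro S hS x hx
    by_contra hc
    push Not at hc
    refine Set.infinite_range_of_injective (f := fun i => ((x i : ℚ) : AlgebraicClosure k))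
      (fun i j h => hx (Rat.cast_injective h)) (hS.subset ?_)
    rintro _ ⟨i, rfl⟩
    exact hc i
  rcases minimal (Ω := AlgebraicClosure k) f ψ 1 with h | h
  · obtain ⟨i, hi⟩ := hinf _ h y hy
    exact ⟨⊥, inferInstance, Or.inr ⟨i, hi⟩⟩
  · obtain ⟨i, hi⟩ := hinf _ h x hx
    have hi2 : Ex f ψ (AlgebraicClosure k) ((x i : ℚ) : AlgebraicClosure k) 1 := by
      by_contra hc
      exact hi hc
    obtain ⟨z, hz⟩ := hi2
    obtain ⟨L, hL, hL2⟩ := finite_witness f ψ (x i) z
      (fun j => Algebra.IsAlgebraic.isAlgebraic (z j)) hz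
    exact ⟨L, hL, Or.inl ⟨i, hL2⟩⟩

theorem dich_real (k : Type) [Field k] [Algebra k ℝ] : Dich k ℝ := by
  intro m n f ψ x y _ _ hx hy
  obtain ⟨B, hB⟩ := real_const f ψ
  obtain ⟨i, hi⟩ := hx B
  obtain ⟨j, hj⟩ := hy B
  by_cases h : Ex f ψ ℝ ((y j : ℚ) : ℝ) 1
  · have h1 := hB _ _ hj hi h
    have h2 : Ex f ψ (RA k) ((x i : ℚ) : RA k) 1 := by
      apply transfer f ψ
      have : ((((x i : ℚ) : RA k)) : ℝ) = ((x i : ℚ) : ℝ) := map_ratCast (algebraMap (RA k) ℝ) _
      rw [this]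
      exact h1
    obtain ⟨z, hz⟩ := h2
    have h3 := (pattern f (algebraicClosure k ℝ).val ((x i : ℚ) : RA k) 1 z)
    obtain ⟨L, hL, hL2⟩ := finite_witness f ψ (x i) (fun l => (algebraicClosure k ℝ).val (z l))
      (fun l => (mem_RA_iff k _).1 (z l).2) (by
        have h4 : (algebraicClosure k ℝ).val ((x i : ℚ) : RA k) = ((x i : ℚ) : ℝ) :=
          map_ratCast _ _
        rw [h4, map_one] at h3
        rw [h3]
        exact hz)
    exact ⟨L, hL, Or.inl ⟨i, hL2⟩⟩
  · exact ⟨⊥, inferInstance, Or.inr ⟨j, h⟩⟩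

/-- `K ⊨ ∀ z, ψ (f_i (a, b, z) = 0 : i)` -/
def All {k : Type} [Field k] {m n : ℕ} (f : Fin m → MvPolynomial (Fin 2 ⊕ Fin n) k)
    (ψ : (Fin m → Prop) → Prop) (K : Type) [Field K] [Algebra k K] (a b : K) : Prop :=
  ∀ z : Fin n → K, ψ fun i => aeval (Sum.elim ![a, b] z) (f i) = 0

theorem assemble {k Ω : Type} [Field k] [Field Ω] [Algebra k Ω] (hd : Dich k Ω) {m n : ℕ}
    (f : Fin m → MvPolynomial (Fin 2 ⊕ Fin n) k) (ψ : (Fin m → Prop) → Prop) :
    ∃ L : IntermediateField k Ω, FiniteDimensional k L ∧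
      ∀ (K : Type) [Field K] [NumberField K] [Algebra k K], (L →ₐ[k] K) → (K →ₐ[k] Ω) →
        ¬ (∀ a b : K, Ex f ψ K a b ↔ Pole K a b) ∧ ¬ (∀ a b : K, All f ψ K a b ↔ Pole K a b) := by
  obtain ⟨L₁, hL₁, h₁⟩ := hd m n f ψ ww uu ww_inj uu_inj ww_large uu_large
  obtain ⟨L₂, hL₂, h₂⟩ := hd m n f (fun p => ¬ ψ p) uu ww uu_inj ww_inj uu_large ww_large
  refine ⟨L₁ ⊔ L₂, IntermediateField.finiteDimensional_sup L₁ L₂, ?_⟩
  intro K _ _ _ ι j
  constructor
  · intro h
    rcases h₁ with ⟨i, hi⟩ | ⟨i, hi⟩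
    · have h3 := Ex.map f ψ (ι.comp (IntermediateField.inclusion (le_sup_left : L₁ ≤ L₁ ⊔ L₂))) hi
      rw [map_ratCast, map_one] at h3
      exact not_pole_ww K i ((h _ _).1 h3)
    · have h3 := (h _ _).2 (pole_uu K i)
      have h4 := Ex.map f ψ j h3
      rw [map_ratCast, map_one] at h4
      exact hi h4
  · intro h
    rcases h₂ with ⟨i, hi⟩ | ⟨i, hi⟩
    · obtain ⟨z, hz⟩ := Ex.map f (fun p => ¬ ψ p)
        (ι.comp (IntermediateField.inclusion (le_sup_right : L₂ ≤ L₁ ⊔ L₂))) hi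
      rw [map_ratCast, map_one] at hz
      exact hz ((h _ _).2 (pole_uu K i) z)
    · refine not_pole_ww K i ((h _ _).1 fun z => ?_)
      by_contra hc
      have h4 := Ex.map f (fun p => ¬ ψ p) j (a := ((ww i : ℚ) : K)) (b := 1) ⟨z, hc⟩
      rw [map_ratCast, map_one] at h4
      exact hi h4

section one
variable {k : Type} [Field k] {n : ℕ} (P : MvPolynomial (Fin 2 ⊕ Fin n) k)

/-- the polynomial in `z`, for given `a` and `b = 1` -/
noncomputable def RR (a : k) : MvPolynomial (Fin n) k := aeval (Sum.elim ![C a, 1] X) P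

/-- the same with the variable `a` in the coefficients -/
noncomputable def QQ : MvPolynomial (Fin n) (Polynomial k) :=
  aeval (Sum.elim ![C Polynomial.X, 1] X) P

theorem RR_coeff (a : k) (s : Fin n →₀ ℕ) : coeff s (RR P a) = (coeff s (QQ P)).eval a := by
  have h1 : RR P a = mapAlgHom (Polynomial.aeval a : Polynomial k →ₐ[k] k) (QQ P) := by
    unfold RR QQ
    rw [comp_aeval_apply]
    congr 1
    congr 1
    funext x
    rcases x with x | x
    · fin_cases x
      · simp
      · simp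
    · simp
  rw [h1, mapAlgHom_apply]
  rw [coeff_map]
  rfl

theorem RR_degree (d : ℕ) (hd : ∀ s ∈ P.support, ∑ j, s (Sum.inr j) ≤ d) (a : k) :
    (RR P a).totalDegree ≤ d := by
  unfold RR
  rw [aeval_def, eval₂_eq']
  refine totalDegree_finsetSum_le fun s hs => ?_
  refine (totalDegree_mul _ _).trans ?_
  have h0 : (algebraMap k (MvPolynomial (Fin n) k) (coeff s P)).totalDegree = 0 := by
    rw [algebraMap_eq, totalDegree_C]
  rw [h0, zero_add, Fintype.prod_sum_type]
  refine (totalDegree_mul _ _).trans ?_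
  have h1 : (∏ j : Fin 2, (Sum.elim ![C a, 1] X : Fin 2 ⊕ Fin n → MvPolynomial (Fin n) k)
      (Sum.inl j) ^ s (Sum.inl j)).totalDegree = 0 := by
    rw [Fin.prod_univ_two]
    simp only [Sum.elim_inl, Matrix.cons_val_zero, Matrix.cons_val_one, one_pow,
      mul_one]
    rw [← map_pow, totalDegree_C]
  have h2 : (∏ j : Fin n, (Sum.elim ![C a, 1] X : Fin 2 ⊕ Fin n → MvPolynomial (Fin n) k)
      (Sum.inr j) ^ s (Sum.inr j)).totalDegree ≤ ∑ j, s (Sum.inr j) := by
    refine (totalDegree_finsetProd _ _).trans (Finset.sum_le_sum fun j _ => ?_)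
    simp only [Sum.elim_inr]
    rw [totalDegree_X_pow]
  rw [h1, zero_add]
  exact h2.trans (hd s hs)

theorem RR_aeval (K : Type) [Field K] [Algebra k K] (a : k) (z : Fin n → K) :
    aeval z (RR P a) = aeval (Sum.elim ![algebraMap k K a, 1] z) P := by
  unfold RR
  rw [comp_aeval_apply]
  congr 1
  congr 1
  funext x
  rcases x with x | x
  · fin_cases x
    · simp
    · simp
  · simp

end one

theorem exists_not_root {k : Type} [Field k] [CharZero k] (q : Polynomial k) (hq : q ≠ 0)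
    (x : ℕ → ℚ) (hx : Function.Injective x) : ∃ i, q.eval ((x i : ℚ) : k) ≠ 0 := by
  classical
  by_contra hc
  push Not at hc
  refine Set.infinite_range_of_injective (f := fun i => ((x i : ℚ) : k))
    (fun i j h => hx (Rat.cast_injective h)) (q.roots.toFinset.finite_toSet.subset ?_)
  rintro _ ⟨i, rfl⟩
  simp only [Finset.mem_coe, Multiset.mem_toFinset]
  exact (Polynomial.mem_roots hq).2 (hc i)

/-- one polynomial of degree at most `d` in `z` -/
theorem one_polynomial {k : Type} [Field k] [NumberField k] {n : ℕ}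
    (P : MvPolynomial (Fin 2 ⊕ Fin n) k) (d : ℕ) (hd1 : 1 ≤ d)
    (hd : ∀ s ∈ P.support, ∑ j, s (Sum.inr j) ≤ d) :
    ∃ (L : Type) (_ : Field L) (_ : Algebra k L), FiniteDimensional k L ∧ Module.finrank k L ≤ d ∧
      ∀ (K : Type) [Field K] [NumberField K] [Algebra k K], (L →ₐ[k] K) →
        ¬ (∀ a b : K, (∃ z : Fin n → K, aeval (Sum.elim ![a, b] z) P = 0) ↔ Pole K a b) := by
  classical
  by_cases h : ∃ s : Fin n →₀ ℕ, s ≠ 0 ∧ coeff s (QQ P) ≠ 0
  · obtain ⟨s, hs, hs2⟩ := h
    obtain ⟨i, hi⟩ := exists_not_root _ hs2 ww ww_inj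
    rw [← RR_coeff] at hi
    have hpos : 0 < (RR P ((ww i : ℚ) : k)).totalDegree := by
      refine lt_of_lt_of_le ?_ (le_totalDegree (mem_support_iff.2 hi))
      rw [Nat.pos_iff_ne_zero]
      intro h0
      apply hs
      rw [Finsupp.sum, Finset.sum_eq_zero_iff] at h0
      ext j
      by_cases hj : j ∈ s.support
      · exact h0 j hj
      · exact Finsupp.notMem_support_iff.1 hj
    obtain ⟨L, i1, i2, i3, hL, z, hz⟩ := zero_of_degree (RR P ((ww i : ℚ) : k)) d
      (RR_degree P d hd _) hpos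
    refine ⟨L, i1, i2, i3, hL, ?_⟩
    intro K _ _ _ ι hK
    refine not_pole_ww K i ((hK _ _).1 ⟨fun j => ι (z j), ?_⟩)
    have h2 := RR_aeval P K ((ww i : ℚ) : k) (fun j => ι (z j))
    rw [map_ratCast] at h2
    rw [← h2, ← comp_aeval_apply z ι, hz, map_zero]
  · push Not at h
    have hQ : QQ P = C (coeff 0 (QQ P)) := by
      ext s : 1
      rw [coeff_C]
      split_ifs with h0
      · rw [← h0]
      · exact h s (Ne.symm h0)
    refine ⟨k, inferInstance, inferInstance, inferInstance, ?_, ?_⟩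
    · rw [Module.finrank_self]
      exact hd1
    · intro K _ _ _ ι hK
      have hR : ∀ a : k, RR P a = C ((coeff 0 (QQ P)).eval a) := by
        intro a
        ext s
        rw [RR_coeff, hQ, coeff_C, coeff_C]
        split_ifs with h0
        · simp
        · simp
      by_cases hq : coeff 0 (QQ P) = 0
      · refine not_pole_ww K 0 ((hK _ _).1 ⟨fun _ => 0, ?_⟩)
        have h2 := RR_aeval P K ((ww 0 : ℚ) : k) (fun _ => 0)
        rw [map_ratCast] at h2
        rw [← h2, hR, hq]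
        simp
      · obtain ⟨i, hi⟩ := exists_not_root _ hq uu uu_inj
        obtain ⟨z, hz⟩ := (hK _ _).2 (pole_uu K i)
        have h2 := RR_aeval P K ((uu i : ℚ) : k) z
        rw [map_ratCast] at h2
        rw [← h2, hR, aeval_C] at hz
        exact hi ((map_eq_zero _).1 hz)

end Pool.Agent.Run7.h91.NU
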