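import Pool.Agent.Run7.h91.NU.Alg
import Pool.Agent.Helper716_Lang.RCMin

set_option autoImplicit false

/-!
# Existential formulas over the real numbers and the real algebraic numbers
-/

namespace Pool.Agent.Run7.h91.NU

open MvPolynomial Pool.Agent.Helper716_Lang.RC

section sap
variable {ι κ : Type}

theorem SAP_pattern {m : ℕ} {P : Fin m → Pt ι → Prop} (hP : ∀ i, SAP (P i))
    (ψ : (Fin m → Prop) → Prop) : SAP (fun v => ψ fun i => P i v) := by
  classical
  choose Q hQ using fun i => (hP i).iffM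
  refine ⟨Finset.univ.biUnion Q, fun v w h hv => ?_⟩
  have : (fun i => P i w) = fun i => P i v := by
    funext i
    apply propext
    exact (hQ i v w fun q hq => h q (Finset.mem_biUnion.2 ⟨i, Finset.mem_univ i, hq⟩)).symm
  show ψ fun i => P i w
  rw [this]
  exact hv

/-- the value of the polynomial with exponents in `A` and coefficients `c` -/
noncomputable def vl {σ : Type} [Fintype σ] {F : Type} [Field F] (A : Finset (σ →₀ ℕ)) (c : A → F)
    (s : σ → F) : F := ∑ α : A, c α * ∏ i, s i ^ (α.1 i)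

end sap

section
variable {k : Type} [Field k] {m n : ℕ} (f : Fin m → MvPolynomial (Fin 2 ⊕ Fin n) k)
    (ψ : (Fin m → Prop) → Prop)

/-- the formula with variable coefficients; the first coordinate is `a`, the second is `1` -/
def Sen (v : Pt ((Σ i : Fin m, (f i).support) ⊕ Unit)) : Prop :=
  ∃ z : Fin n → v.1.F, ψ fun i =>
    vl (f i).support (fun α => v.2 (Sum.inl ⟨i, α⟩)) (Sum.elim ![v.2 (Sum.inr ()), 1] z) = 0

theorem sen_sap : SAP (Sen f ψ) := by
  classical
  have h1 : SAP (fun u : Pt (((Σ i : Fin m, (f i).support) ⊕ Unit) ⊕ Fin n) =>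
      ψ fun i => vl (f i).support (fun α => u.2 (Sum.inl (Sum.inl ⟨i, α⟩)))
        (Sum.elim ![u.2 (Sum.inl (Sum.inr ())), 1] (fun j => u.2 (Sum.inr j))) = 0) := by
    refine SAP_pattern (fun i => SAP.eq_zeroM ?_) ψ
    refine PF.sumM _ fun α _ => (PF.coordM _).mulM (PF.prodM _ fun x _ => PF.powM ?_ _)
    rcases x with x | x
    · fin_cases x
      · exact PF.coordM _
      · exact PF.oneM
    · exact PF.coordM _
  exact (SAP.exists_blockM h1).congrM fun v => Iff.rfl

/-- the parameters in an extension field -/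
noncomputable def prm (K : Type) [Field K] [Algebra k K] (a : K) :
    (Σ i : Fin m, (f i).support) ⊕ Unit → K :=
  Sum.elim (fun s => algebraMap k K (coeff s.2.1 (f s.1))) (fun _ => a)

theorem vl_eq (K : Type) [Field K] [Algebra k K] (i : Fin m) (x : Fin 2 ⊕ Fin n → K) :
    vl (f i).support (fun α => algebraMap k K (coeff α.1 (f i))) x = aeval x (f i) := by
  rw [aeval_def, eval₂_eq', vl]
  rw [← Finset.sum_coe_sort (f i).support
    (fun α => algebraMap k K (coeff α (f i)) * ∏ j, x j ^ (α j))]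

theorem sen_iff (M : Model) [Algebra k M.F] (a : M.F) :
    Sen f ψ ⟨M, prm f M.F a⟩ ↔ Ex f ψ M.F a 1 := by
  unfold Sen Ex
  apply exists_congr
  intro z
  have : (fun i => vl (f i).support (fun α => prm f M.F a (Sum.inl ⟨i, α⟩))
      (Sum.elim ![prm f M.F a (Sum.inr ()), 1] z) = 0) =
      fun i => aeval (Sum.elim ![a, 1] z) (f i) = 0 := by
    funext i
    rw [← vl_eq f M.F i]
    rfl
  exact iff_of_eq (congrArg ψ this)

end

/-- the real algebraic numbers over `k` -/
abbrev RA (k : Type) [Field k] [Algebra k ℝ] : Type := algebraicClosure k ℝ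

section
variable (k : Type) [Field k] [Algebra k ℝ]

theorem mem_RA_iff (x : ℝ) : x ∈ algebraicClosure k ℝ ↔ IsAlgebraic k x := by
  exact mem_algebraicClosure_iff

instance RA_closed : IsRealClosed (RA k) := by
  have := isRealClosed_real
  refine IsRealClosed.of_linearOrderedField (fun {x} hx => ?_) (fun {g} hg => ?_)
  · have hx0 : (0 : ℝ) ≤ x.1 := hx
    have h1 : IsAlgebraic k (√x.1) := by
      apply IsAlgebraic.of_pow (n := 2) (by norm_num)
      rw [Real.sq_sqrt hx0]
      exact (mem_RA_iff k _).1 x.2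
    refine ⟨⟨√x.1, (mem_RA_iff k _).2 h1⟩, ?_⟩
    apply Subtype.ext
    exact (Real.mul_self_sqrt hx0).symm
  · have hodd : Odd (g.map (algebraMap (RA k) ℝ)).natDegree := by
      rw [Polynomial.natDegree_map]
      exact hg
    obtain ⟨x, hx⟩ := IsRealClosed.exists_isRoot_of_odd_natDegree hodd
    have hg0 : g ≠ 0 := by
      rintro rfl
      simp at hg
    have h1 : IsAlgebraic (RA k) x := ⟨g, hg0, by
      rw [Polynomial.IsRoot, Polynomial.eval_map, ← Polynomial.aeval_def] at hx
      exact hx⟩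
    have h2 : IsAlgebraic k x := by
      have : Algebra.IsAlgebraic k (RA k) := algebraicClosure.isAlgebraic k ℝ
      exact h1.restrictScalars k
    refine ⟨⟨x, (mem_RA_iff k _).2 h2⟩, ?_⟩
    rw [Polynomial.IsRoot] at hx ⊢
    apply (algebraMap (RA k) ℝ).injective
    rw [map_zero, ← hx, Polynomial.eval_map]
    exact (Polynomial.eval₂_at_apply (algebraMap (RA k) ℝ) _).symm

end

section
variable {k : Type} [Field k] [Algebra k ℝ] {m n : ℕ}
    (f : Fin m → MvPolynomial (Fin 2 ⊕ Fin n) k) (ψ : (Fin m → Prop) → Prop)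

theorem eventually_sign (P : Polynomial ℝ) :
    ∃ B : ℝ, ∀ s t : ℝ, B < s → B < t → SignType.sign (P.eval s) = SignType.sign (P.eval t) := by
  classical
  have := isRealClosed_real
  by_cases hP : P = 0
  · exact ⟨0, fun s t _ _ => by rw [hP]; simp⟩
  · obtain ⟨B, hB⟩ := Finset.exists_le P.roots.toFinset
    refine ⟨B, fun s t hs ht => sign_const P Set.ordConnected_Ioi (I := Set.Ioi B) (fun r hr h0 => ?_)
      hs ht⟩
    have h1 : r ∈ P.roots.toFinset := by
      rw [Multiset.mem_toFinset]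
      exact (Polynomial.mem_roots hP).2 h0
    exact absurd (hB r h1) (not_le.2 hr)

theorem sign_coe (x : RA k) : SignType.sign ((x : ℝ)) = SignType.sign x := by
  rcases lt_trichotomy x 0 with h | h | h
  · rw [sign_neg h, sign_neg (show (x : ℝ) < 0 from h)]
  · rw [h]; simp
  · rw [sign_pos h, sign_pos (show (0 : ℝ) < x from h)]

/-- over the real numbers, the formula is constant for large `a` -/
theorem real_const : ∃ B : ℝ, ∀ s t : ℝ, B < s → B < t → Ex f ψ ℝ s 1 → Ex f ψ ℝ t 1 := by
  classical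
  have hrc := isRealClosed_real
  obtain ⟨Q, hQ⟩ := sen_sap f ψ
  choose B hB using fun q : MvPolynomial ((Σ i : Fin m, (f i).support) ⊕ Unit) ℚ =>
    eventually_sign (aeval (Sum.elim (fun s => Polynomial.C (algebraMap k ℝ (coeff s.2.1 (f s.1))))
      (fun _ => Polynomial.X)) q : Polynomial ℝ)
  obtain ⟨B', hB'⟩ := Finset.exists_le (Q.image B)
  refine ⟨B', fun s t hs ht h => ?_⟩
  have h1 := (sen_iff f ψ ⟨ℝ⟩ s).2 h
  refine (sen_iff f ψ ⟨ℝ⟩ t).1 (hQ _ _ (fun q hq => ?_) h1)
  have h2 : ∀ r : ℝ, aeval (prm f ℝ r) q = Polynomial.eval r (aeval (Sum.elim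
      (fun s => Polynomial.C (algebraMap k ℝ (coeff s.2.1 (f s.1))))
      (fun _ => Polynomial.X)) q : Polynomial ℝ) := by
    intro r
    rw [← Polynomial.coe_aeval_eq_eval]
    show _ = ((Polynomial.aeval r).restrictScalars ℚ : Polynomial ℝ →ₐ[ℚ] ℝ) _
    rw [comp_aeval_apply]
    congr 1
    congr 1
    funext x
    rcases x with x | x
    · simp [prm]
    · simp [prm]
  have h3 := hB' _ (Finset.mem_image_of_mem B hq)
  show SignType.sign (aeval (prm f ℝ s) q) = SignType.sign (aeval (prm f ℝ t) q)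
  rw [h2, h2]
  exact hB q s t (lt_of_le_of_lt h3 hs) (lt_of_le_of_lt h3 ht)

/-- transfer to the real algebraic numbers -/
theorem transfer (a : RA k) (h : Ex f ψ ℝ (a : ℝ) 1) : Ex f ψ (RA k) a 1 := by
  have hrc := isRealClosed_real
  obtain ⟨Q, hQ⟩ := sen_sap f ψ
  have h1 := (sen_iff f ψ ⟨ℝ⟩ (a : ℝ)).2 h
  refine (sen_iff f ψ ⟨RA k⟩ a).1 (hQ _ _ (fun q hq => ?_) h1)
  show SignType.sign (aeval (prm f ℝ (a : ℝ)) q) = SignType.sign (aeval (prm f (RA k) a) q)
  have h2 : aeval (prm f ℝ (a : ℝ)) q = ((aeval (prm f (RA k) a) q : RA k) : ℝ) := by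
    show _ = ((algebraMap (RA k) ℝ).toRatAlgHom : RA k →ₐ[ℚ] ℝ) _
    rw [comp_aeval_apply]
    congr 1
    congr 1
    funext x
    rcases x with x | x
    · rfl
    · rfl
  rw [h2, sign_coe]

end

end Pool.Agent.Run7.h91.NU
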